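import Mathlib

/-!
# AF2 / EP: the stability part

`ne_zero`: `det (s S + t W + κ Ω) ≠ 0` for `κ² = X + c s t`, `X, c ≥ 0`, `S, W` positive definite, `Ω` skew, in the
closed right half planes (not both real parts `0`).
`lin_of_hurwitz`: two consecutive coefficients of a Hurwitz polynomial.
`real_of_zero`: `κ² = c τ`: only real negative zeros.
-/

set_option autoImplicit false

namespace Helper87.EP

open Matrix Polynomial

/-! ### two quadratic lemmas -/

theorem quad_ne {a b w X c : ℝ} (ha : 0 < a) (hb : 0 < b) (hX : 0 ≤ X) (hc : 0 ≤ c) {s t : ℂ}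
    (hs : 0 ≤ s.re) (ht : 0 ≤ t.re) (hst : 0 < s.re ∨ 0 < t.re) :
    (s * a + t * b) ^ 2 + ((X : ℂ) + c * s * t) * (w : ℂ) ^ 2 ≠ 0 := by
  intro h0
  set m : ℝ := a * b + c * w ^ 2 / 2 with hm
  have hab : 0 < a * b := mul_pos ha hb
  have hcw : 0 ≤ c * w ^ 2 / 2 := by positivity
  have hm1 : a * b ≤ m := by rw [hm]; linarith
  have hm0 : 0 < m := by linarith
  have hdisc : 0 ≤ m ^ 2 - (a * b) ^ 2 := by nlinarith
  set D : ℝ := Real.sqrt (m ^ 2 - (a * b) ^ 2) with hD
  have hD2 : D ^ 2 = m ^ 2 - (a * b) ^ 2 := Real.sq_sqrt hdisc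
  have hD0 : 0 ≤ D := Real.sqrt_nonneg _
  have hDm : D < m := by
    apply lt_of_pow_lt_pow_left₀ 2 hm0.le
    rw [hD2]
    nlinarith
  set u : ℂ := (a : ℂ) ^ 2 * s + ((m + D : ℝ) : ℂ) * t with hu
  set v : ℂ := (a : ℂ) ^ 2 * s + ((m - D : ℝ) : ℂ) * t with hv
  have hure : u.re = a ^ 2 * s.re + (m + D) * t.re := by
    rw [hu, ← Complex.ofReal_pow]
    simp only [Complex.add_re, Complex.re_ofReal_mul]
  have hvre : v.re = a ^ 2 * s.re + (m - D) * t.re := by
    rw [hv, ← Complex.ofReal_pow]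
    simp only [Complex.add_re, Complex.re_ofReal_mul]
  have ha2 : 0 < a ^ 2 := by positivity
  have hup : 0 < u.re := by
    rw [hure]
    rcases hst with h | h
    · have := mul_pos ha2 h
      have := mul_nonneg (show 0 ≤ m + D by linarith) ht
      linarith
    · have := mul_nonneg ha2.le hs
      have := mul_pos (show 0 < m + D by linarith) h
      linarith
  have hvp : 0 < v.re := by
    rw [hvre]
    rcases hst with h | h
    · have := mul_pos ha2 h
      have := mul_nonneg (show 0 ≤ m - D by linarith) ht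
      linarith
    · have := mul_nonneg ha2.le hs
      have := mul_pos (show 0 < m - D by linarith) h
      linarith
  have hD2c : (D : ℂ) ^ 2 = (m : ℂ) ^ 2 - ((a : ℂ) * b) ^ 2 := by exact_mod_cast hD2
  have hmc : (m : ℂ) = (a : ℂ) * b + c * (w : ℂ) ^ 2 / 2 := by rw [hm]; push_cast; ring
  have huv : u * v = -((a ^ 2 * X * w ^ 2 : ℝ) : ℂ) := by
    have e : u * v = (a : ℂ) ^ 2 * ((s * a + t * b) ^ 2 + ((X : ℂ) + c * s * t) * (w : ℂ) ^ 2) -
        (a : ℂ) ^ 2 * X * (w : ℂ) ^ 2 := by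
      have e1 : u * v = ((a : ℂ) ^ 2 * s + m * t) ^ 2 - (D : ℂ) ^ 2 * t ^ 2 := by
        rw [hu, hv]; push_cast; ring
      rw [e1, hD2c, hmc]
      ring
    rw [e, h0]
    push_cast
    ring
  have hr : 0 ≤ a ^ 2 * X * w ^ 2 := by positivity
  -- multiply by conj v
  have key : u.re * Complex.normSq v = -(a ^ 2 * X * w ^ 2) * v.re := by
    have h1 : u * (v * (starRingEnd ℂ) v) = -((a ^ 2 * X * w ^ 2 : ℝ) : ℂ) * (starRingEnd ℂ) v := by
      rw [← mul_assoc, huv]
    rw [Complex.mul_conj] at h1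
    have h2 := congrArg Complex.re h1
    rw [← Complex.ofReal_neg, Complex.re_ofReal_mul, mul_comm u, Complex.re_ofReal_mul,
      Complex.conj_re] at h2
    linarith
  have hv0 : 0 < Complex.normSq v := by
    rw [Complex.normSq_pos]
    intro h
    rw [h] at hvp
    simp at hvp
  have := mul_pos hup hv0
  have := mul_nonneg hr hvp.le
  linarith

theorem quad_ne' {a b w X c : ℝ} (ha : 0 < a) (hb : 0 ≤ b) (hX : 0 ≤ X) (hc : 0 ≤ c) {s t : ℂ}
    (hs : 0 < s.re) (ht : 0 ≤ t.re) :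
    (s * a + t * b) ^ 2 + ((X : ℂ) + c * s * t) * (w : ℂ) ^ 2 ≠ 0 := by
  intro h0
  set m : ℝ := a * b + c * w ^ 2 / 2 with hm
  have hab : 0 ≤ a * b := mul_nonneg ha.le hb
  have hcw : 0 ≤ c * w ^ 2 / 2 := by positivity
  have hm1 : a * b ≤ m := by rw [hm]; linarith
  have hm0 : 0 ≤ m := by linarith
  have hdisc : 0 ≤ m ^ 2 - (a * b) ^ 2 := by nlinarith
  set D : ℝ := Real.sqrt (m ^ 2 - (a * b) ^ 2) with hD
  have hD2 : D ^ 2 = m ^ 2 - (a * b) ^ 2 := Real.sq_sqrt hdisc
  have hD0 : 0 ≤ D := Real.sqrt_nonneg _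
  have hDm : D ≤ m := by
    apply le_of_sq_le_sq _ hm0
    rw [hD2]
    nlinarith [sq_nonneg (a * b)]
  set u : ℂ := (a : ℂ) ^ 2 * s + ((m + D : ℝ) : ℂ) * t with hu
  set v : ℂ := (a : ℂ) ^ 2 * s + ((m - D : ℝ) : ℂ) * t with hv
  have hure : u.re = a ^ 2 * s.re + (m + D) * t.re := by
    rw [hu, ← Complex.ofReal_pow]
    simp only [Complex.add_re, Complex.re_ofReal_mul]
  have hvre : v.re = a ^ 2 * s.re + (m - D) * t.re := by
    rw [hv, ← Complex.ofReal_pow]
    simp only [Complex.add_re, Complex.re_ofReal_mul]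
  have ha2 : 0 < a ^ 2 := by positivity
  have hup : 0 < u.re := by
    rw [hure]
    have := mul_pos ha2 hs
    have := mul_nonneg (show 0 ≤ m + D by linarith) ht
    linarith
  have hvp : 0 < v.re := by
    rw [hvre]
    have := mul_pos ha2 hs
    have := mul_nonneg (show 0 ≤ m - D by linarith) ht
    linarith
  have hD2c : (D : ℂ) ^ 2 = (m : ℂ) ^ 2 - ((a : ℂ) * b) ^ 2 := by exact_mod_cast hD2
  have hmc : (m : ℂ) = (a : ℂ) * b + c * (w : ℂ) ^ 2 / 2 := by rw [hm]; push_cast; ring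
  have huv : u * v = -((a ^ 2 * X * w ^ 2 : ℝ) : ℂ) := by
    have e : u * v = (a : ℂ) ^ 2 * ((s * a + t * b) ^ 2 + ((X : ℂ) + c * s * t) * (w : ℂ) ^ 2) -
        (a : ℂ) ^ 2 * X * (w : ℂ) ^ 2 := by
      have e1 : u * v = ((a : ℂ) ^ 2 * s + m * t) ^ 2 - (D : ℂ) ^ 2 * t ^ 2 := by
        rw [hu, hv]; push_cast; ring
      rw [e1, hD2c, hmc]
      ring
    rw [e, h0]
    push_cast
    ring
  have hr : 0 ≤ a ^ 2 * X * w ^ 2 := by positivity
  have key : u.re * Complex.normSq v = -(a ^ 2 * X * w ^ 2) * v.re := by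
    have h1 : u * (v * (starRingEnd ℂ) v) = -((a ^ 2 * X * w ^ 2 : ℝ) : ℂ) * (starRingEnd ℂ) v := by
      rw [← mul_assoc, huv]
    rw [Complex.mul_conj] at h1
    have h2 := congrArg Complex.re h1
    rw [← Complex.ofReal_neg, Complex.re_ofReal_mul, mul_comm u, Complex.re_ofReal_mul,
      Complex.conj_re] at h2
    linarith
  have hv0 : 0 < Complex.normSq v := by
    rw [Complex.normSq_pos]
    intro h
    rw [h] at hvp
    simp at hvp
  have := mul_pos hup hv0
  have := mul_nonneg hr hvp.le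
  linarith

theorem quad_real {a b w c : ℝ} (ha : 0 < a) (hb : 0 < b) (hc : 0 ≤ c) {τ : ℂ}
    (h : (a + τ * b) ^ 2 + (c * τ) * (w : ℂ) ^ 2 = 0) : τ.im = 0 ∧ τ.re < 0 := by
  set M : ℝ := 2 * a * b + c * w ^ 2 with hM
  have hcw : 0 ≤ c * w ^ 2 := by positivity
  have hab : 0 < a * b := mul_pos ha hb
  have hMab : 2 * (a * b) ≤ M := by rw [hM]; linarith
  have h1 : (b : ℂ) ^ 2 * τ ^ 2 + M * τ + (a : ℂ) ^ 2 = 0 := by
    rw [← h, hM]; push_cast; ring
  obtain ⟨x, y⟩ := τ
  have hre := congrArg Complex.re h1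
  have him := congrArg Complex.im h1
  simp [pow_two] at hre him
  have e1 : b ^ 2 * (x ^ 2 - y ^ 2) + M * x + a ^ 2 = 0 := by nlinarith
  have e2 : (2 * b ^ 2 * x + M) * y = 0 := by nlinarith
  have hb2 : 0 < b ^ 2 := by positivity
  have hy : y = 0 := by
    by_contra hy
    have e3 : 2 * b ^ 2 * x + M = 0 := by
      rcases mul_eq_zero.1 e2 with h | h
      · exact h
      · exact absurd h hy
    have hy2 : 0 < y ^ 2 := by positivity
    have e4 : 4 * b ^ 2 * (b ^ 2 * (x ^ 2 - y ^ 2) + M * x + a ^ 2) = 0 := by rw [e1]; ring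
    have e5 : (2 * b ^ 2 * x + M) ^ 2 = 0 := by rw [e3]; ring
    have e6 : M ^ 2 - 4 * (a * b) ^ 2 + 4 * b ^ 4 * y ^ 2 = 0 := by nlinarith
    have e7 : 0 ≤ M ^ 2 - 4 * (a * b) ^ 2 := by nlinarith
    have e8 : 0 < 4 * b ^ 4 * y ^ 2 := by positivity
    linarith
  refine ⟨hy, ?_⟩
  show x < 0
  by_contra hx
  push Not at hx
  rw [hy] at e1
  have : 0 ≤ b ^ 2 * (x ^ 2 - 0 ^ 2) := by nlinarith [sq_nonneg x]
  have : 0 ≤ M * x := mul_nonneg (by linarith) hx
  have : 0 < a ^ 2 := by positivity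
  linarith

/-! ### the forms -/

section forms

variable {n : Type*} [Fintype n] [DecidableEq n]

omit [DecidableEq n] in
private theorem form_expand (A : Matrix n n ℝ) (v : n → ℂ) :
    star v ⬝ᵥ ((A.map (fun x : ℝ => (x : ℂ))) *ᵥ v) =
      ((∑ i, ∑ j, A i j * ((v i).re * (v j).re + (v i).im * (v j).im) : ℝ) : ℂ) +
      ((∑ i, ∑ j, A i j * ((v i).re * (v j).im - (v i).im * (v j).re) : ℝ) : ℂ) * Complex.I := by
  simp only [dotProduct, mulVec, Pi.star_apply, Matrix.map_apply, Finset.mul_sum]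
  push_cast
  simp only [Finset.sum_mul]
  rw [← Finset.sum_add_distrib]
  refine Finset.sum_congr rfl fun i _ => ?_
  rw [← Finset.sum_add_distrib]
  refine Finset.sum_congr rfl fun j _ => ?_
  apply Complex.ext
  · simp
    ring
  · simp
    ring

omit [DecidableEq n] in
theorem form_sym {A : Matrix n n ℝ} (hA : A.IsHermitian) (v : n → ℂ) :
    star v ⬝ᵥ ((A.map (fun x : ℝ => (x : ℂ))) *ᵥ v) =
      (((fun i => (v i).re) ⬝ᵥ (A *ᵥ fun i => (v i).re) +
        (fun i => (v i).im) ⬝ᵥ (A *ᵥ fun i => (v i).im) : ℝ) : ℂ) := by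
  rw [form_expand]
  have hs : ∀ i j, A i j = A j i := fun i j => by
    have := congrFun (congrFun hA j) i
    simpa [Matrix.conjTranspose_apply] using this
  have h0 : ∑ i, ∑ j, A i j * ((v i).re * (v j).im - (v i).im * (v j).re) = 0 := by
    have h1 : ∑ i, ∑ j, A i j * ((v i).re * (v j).im - (v i).im * (v j).re) =
        ∑ i, ∑ j, A i j * ((v j).re * (v i).im - (v j).im * (v i).re) := by
      rw [Finset.sum_comm]
      refine Finset.sum_congr rfl fun i _ => Finset.sum_congr rfl fun j _ => ?_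
      rw [hs i j]
    have h2 : ∑ i, ∑ j, A i j * ((v j).re * (v i).im - (v j).im * (v i).re) =
        -∑ i, ∑ j, A i j * ((v i).re * (v j).im - (v i).im * (v j).re) := by
      rw [← Finset.sum_neg_distrib]
      refine Finset.sum_congr rfl fun i _ => ?_
      rw [← Finset.sum_neg_distrib]
      refine Finset.sum_congr rfl fun j _ => ?_
      ring
    linarith
  rw [h0]
  simp only [dotProduct, mulVec, Finset.mul_sum]
  rw [Complex.ofReal_zero, zero_mul, add_zero, ← Finset.sum_add_distrib]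
  congr 1
  refine Finset.sum_congr rfl fun i _ => ?_
  rw [← Finset.sum_add_distrib]
  refine Finset.sum_congr rfl fun j _ => ?_
  ring

omit [DecidableEq n] in
theorem form_skew {A : Matrix n n ℝ} (hA : Aᵀ = -A) (v : n → ℂ) :
    ∃ w : ℝ, star v ⬝ᵥ ((A.map (fun x : ℝ => (x : ℂ))) *ᵥ v) = (w : ℂ) * Complex.I := by
  rw [form_expand]
  have hs : ∀ i j, A i j = -A j i := fun i j => by
    have := congrFun (congrFun hA j) i
    simpa [Matrix.transpose_apply] using this
  have h0 : ∑ i, ∑ j, A i j * ((v i).re * (v j).re + (v i).im * (v j).im) = 0 := by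
    have h1 : ∑ i, ∑ j, A i j * ((v i).re * (v j).re + (v i).im * (v j).im) =
        ∑ i, ∑ j, A j i * ((v j).re * (v i).re + (v j).im * (v i).im) := by
      rw [Finset.sum_comm]
    have h2 : ∑ i, ∑ j, A j i * ((v j).re * (v i).re + (v j).im * (v i).im) =
        -∑ i, ∑ j, A i j * ((v i).re * (v j).re + (v i).im * (v j).im) := by
      rw [← Finset.sum_neg_distrib]
      refine Finset.sum_congr rfl fun i _ => ?_
      rw [← Finset.sum_neg_distrib]
      refine Finset.sum_congr rfl fun j _ => ?_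
      rw [hs i j]
      ring
    linarith
  refine ⟨∑ i, ∑ j, A i j * ((v i).re * (v j).im - (v i).im * (v j).re), ?_⟩
  rw [h0, Complex.ofReal_zero, zero_add]

omit [DecidableEq n] in
theorem form_pos {A : Matrix n n ℝ} (hA : A.PosDef) {v : n → ℂ} (hv : v ≠ 0) :
    0 < (fun i => (v i).re) ⬝ᵥ (A *ᵥ fun i => (v i).re) +
      (fun i => (v i).im) ⬝ᵥ (A *ᵥ fun i => (v i).im) := by
  have hnn : ∀ x : n → ℝ, 0 ≤ x ⬝ᵥ (A *ᵥ x) := fun x => by
    by_cases hx : x = 0
    · rw [hx]; simp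
    · have := hA.dotProduct_mulVec_pos hx
      simpa using this.le
  by_cases hre : (fun i => (v i).re) = 0
  · have him : (fun i => (v i).im) ≠ 0 := by
      intro him
      apply hv
      funext i
      apply Complex.ext
      · simpa using congrFun hre i
      · simpa using congrFun him i
    have h1 := hA.dotProduct_mulVec_pos him
    have h2 := hnn (fun i => (v i).re)
    simp only [star_trivial] at h1
    linarith
  · have h1 := hA.dotProduct_mulVec_pos hre
    have h2 := hnn (fun i => (v i).im)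
    simp only [star_trivial] at h1
    linarith

/-- the value of the three forms at a kernel vector -/
theorem kernel_forms {S W Om : Matrix n n ℝ} (hS : S.PosDef) (hW : W.PosDef) (hO : Omᵀ = -Om)
    {s t k : ℂ} (h : (s • S.map (fun x : ℝ => (x : ℂ)) + t • W.map (fun x : ℝ => (x : ℂ)) +
      k • Om.map (fun x : ℝ => (x : ℂ))).det = 0) :
    ∃ a b w : ℝ, 0 < a ∧ 0 < b ∧ s * a + t * b + k * (w * Complex.I) = 0 := by
  obtain ⟨v, hv, hv0⟩ := Matrix.exists_mulVec_eq_zero_iff.2 h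
  obtain ⟨w, hw⟩ := form_skew hO v
  refine ⟨_, _, w, form_pos hS hv, form_pos hW hv, ?_⟩
  rw [← form_sym hS.isHermitian v, ← form_sym hW.isHermitian v, ← hw]
  have h1 := congrArg (fun x => star v ⬝ᵥ x) hv0
  simp only [Matrix.add_mulVec, Matrix.smul_mulVec, dotProduct_add, dotProduct_smul,
    dotProduct_zero, smul_eq_mul] at h1
  exact h1

theorem ne_zero {S W Om : Matrix n n ℝ} (hS : S.PosDef) (hW : W.PosDef) (hO : Omᵀ = -Om)
    {X c : ℝ} (hX : 0 ≤ X) (hc : 0 ≤ c) {s t k : ℂ} (hs : 0 ≤ s.re) (ht : 0 ≤ t.re)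
    (hst : 0 < s.re ∨ 0 < t.re) (hk : k ^ 2 = X + c * s * t) :
    (s • S.map (fun x : ℝ => (x : ℂ)) + t • W.map (fun x : ℝ => (x : ℂ)) +
      k • Om.map (fun x : ℝ => (x : ℂ))).det ≠ 0 := by
  intro h
  obtain ⟨a, b, w, ha, hb, e⟩ := kernel_forms hS hW hO h
  apply quad_ne ha hb hX hc hs ht hst (w := w)
  rw [← hk]
  have e1 : s * a + t * b = -(k * (w * Complex.I)) := by linear_combination e
  rw [e1]
  have hI : Complex.I ^ 2 = -1 := Complex.I_sq
  linear_combination (k ^ 2 * (w : ℂ) ^ 2) * hI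

omit [DecidableEq n] in
theorem form_nonneg {A : Matrix n n ℝ} (hA : A.PosSemidef) (v : n → ℂ) :
    0 ≤ (fun i => (v i).re) ⬝ᵥ (A *ᵥ fun i => (v i).re) +
      (fun i => (v i).im) ⬝ᵥ (A *ᵥ fun i => (v i).im) := by
  have h1 := hA.dotProduct_mulVec_nonneg (fun i => (v i).re)
  have h2 := hA.dotProduct_mulVec_nonneg (fun i => (v i).im)
  simp only [star_trivial] at h1 h2
  linarith

/-- `W` positive semidefinite -/
theorem kernel_forms' {S W Om : Matrix n n ℝ} (hS : S.PosDef) (hW : W.PosSemidef)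
    (hO : Omᵀ = -Om) {s t k : ℂ}
    (h : (s • S.map (fun x : ℝ => (x : ℂ)) + t • W.map (fun x : ℝ => (x : ℂ)) +
      k • Om.map (fun x : ℝ => (x : ℂ))).det = 0) :
    ∃ a b w : ℝ, 0 < a ∧ 0 ≤ b ∧ s * a + t * b + k * (w * Complex.I) = 0 := by
  obtain ⟨v, hv, hv0⟩ := Matrix.exists_mulVec_eq_zero_iff.2 h
  obtain ⟨w, hw⟩ := form_skew hO v
  refine ⟨_, _, w, form_pos hS hv, form_nonneg hW v, ?_⟩
  rw [← form_sym hS.isHermitian v, ← form_sym hW.isHermitian v, ← hw]
  have h1 := congrArg (fun x => star v ⬝ᵥ x) hv0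
  simp only [Matrix.add_mulVec, Matrix.smul_mulVec, dotProduct_add, dotProduct_smul,
    dotProduct_zero, smul_eq_mul] at h1
  exact h1

/-- `W` positive semidefinite -/
theorem ne_zero' {S W Om : Matrix n n ℝ} (hS : S.PosDef) (hW : W.PosSemidef) (hO : Omᵀ = -Om)
    {X c : ℝ} (hX : 0 ≤ X) (hc : 0 ≤ c) {s t k : ℂ} (hs : 0 < s.re) (ht : 0 ≤ t.re)
    (hk : k ^ 2 = X + c * s * t) :
    (s • S.map (fun x : ℝ => (x : ℂ)) + t • W.map (fun x : ℝ => (x : ℂ)) +
      k • Om.map (fun x : ℝ => (x : ℂ))).det ≠ 0 := by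
  intro h
  obtain ⟨a, b, w, ha, hb, e⟩ := kernel_forms' hS hW hO h
  apply quad_ne' ha hb hX hc hs ht (w := w)
  rw [← hk]
  have e1 : s * a + t * b = -(k * (w * Complex.I)) := by linear_combination e
  rw [e1]
  have hI : Complex.I ^ 2 = -1 := Complex.I_sq
  linear_combination (k ^ 2 * (w : ℂ) ^ 2) * hI

theorem real_of_zero {S W Om : Matrix n n ℝ} (hS : S.PosDef) (hW : W.PosDef) (hO : Omᵀ = -Om)
    {c : ℝ} (hc : 0 ≤ c) {τ k : ℂ} (hk : k ^ 2 = c * τ)
    (h : (S.map (fun x : ℝ => (x : ℂ)) + τ • W.map (fun x : ℝ => (x : ℂ)) +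
      k • Om.map (fun x : ℝ => (x : ℂ))).det = 0) : τ.im = 0 ∧ τ.re < 0 := by
  have h' : ((1 : ℂ) • S.map (fun x : ℝ => (x : ℂ)) + τ • W.map (fun x : ℝ => (x : ℂ)) +
      k • Om.map (fun x : ℝ => (x : ℂ))).det = 0 := by rwa [one_smul]
  obtain ⟨a, b, w, ha, hb, e⟩ := kernel_forms hS hW hO h'
  apply quad_real ha hb hc (w := w)
  rw [← hk]
  have e1 : (a : ℂ) + τ * b = -(k * (w * Complex.I)) := by linear_combination e
  rw [e1]
  have hI : Complex.I ^ 2 = -1 := Complex.I_sq
  linear_combination (k ^ 2 * (w : ℂ) ^ 2) * hI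

end forms

/-! ### Hurwitz polynomials -/

/-- all roots in the open left half plane -/
def Hw (p : ℂ[X]) : Prop := p ≠ 0 ∧ ∀ z, p.eval z = 0 → z.re < 0

theorem Hw.derivative {p : ℂ[X]} (hp : Hw p) (hd : 1 ≤ p.natDegree) : Hw (derivative p) := by
  have hd' : 0 < p.degree := Polynomial.natDegree_pos_iff_degree_pos.1 hd
  have hne : Polynomial.derivative p ≠ 0 := by
    intro h
    have := Polynomial.derivative_eq_zero.1 h
    omega
  refine ⟨hne, fun z hz => ?_⟩
  have h1 : z ∈ p.derivative.rootSet ℂ := by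
    rw [Polynomial.mem_rootSet]
    exact ⟨hne, by rw [Polynomial.coe_aeval_eq_eval]; exact hz⟩
  have h2 := Polynomial.rootSet_derivative_subset_convexHull_rootSet hd' h1
  have h3 : convexHull ℝ (p.rootSet ℂ) ⊆ {c : ℂ | c.re < 0} := by
    apply convexHull_min _ (convex_halfSpace_re_lt 0)
    intro w hw
    rw [Polynomial.mem_rootSet, Polynomial.coe_aeval_eq_eval] at hw
    exact hp.2 w hw.2
  exact h3 h2

theorem Hw.coeff_zero {p : ℂ[X]} (hp : Hw p) : p.coeff 0 ≠ 0 := by
  intro h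
  have := hp.2 0 (by rw [← Polynomial.coeff_zero_eq_eval_zero]; exact h)
  simp at this

theorem Hw.reverse {p : ℂ[X]} (hp : Hw p) : Hw p.reverse := by
  refine ⟨fun h => hp.1 (by rwa [Polynomial.reverse_eq_zero] at h), fun z hz => ?_⟩
  have hz0 : z ≠ 0 := by
    rintro rfl
    rw [← Polynomial.coeff_zero_eq_eval_zero, Polynomial.coeff_zero_reverse] at hz
    exact hp.1 (Polynomial.leadingCoeff_eq_zero.1 hz)
  have hzi : z⁻¹ ≠ 0 := inv_ne_zero hz0
  letI : Invertible z⁻¹ := invertibleOfNonzero hzi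
  have h1 := (Polynomial.eval₂_reverse_eq_zero_iff (RingHom.id ℂ) z⁻¹ p).1 (by
    rw [invOf_eq_inv, inv_inv]
    exact hz)
  have h2 := hp.2 z⁻¹ h1
  rw [Complex.inv_re] at h2
  have h3 : 0 < Complex.normSq z := Complex.normSq_pos.2 hz0
  by_contra hcon
  push Not at hcon
  have : 0 ≤ z.re / Complex.normSq z := div_nonneg hcon h3.le
  linarith

theorem Hw.natDegree_reverse {p : ℂ[X]} (hp : Hw p) : p.reverse.natDegree = p.natDegree := by
  rw [Polynomial.reverse_natDegree, Polynomial.natTrailingDegree_eq_zero.2 (Or.inr hp.coeff_zero)]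
  omega

theorem Hw.iterate {p : ℂ[X]} (hp : Hw p) (k : ℕ) (hk : k ≤ p.natDegree) :
    Hw (Polynomial.derivative^[k] p) ∧ (Polynomial.derivative^[k] p).natDegree = p.natDegree - k := by
  induction k with
  | zero => exact ⟨hp, by simp⟩
  | succ k ih =>
    obtain ⟨h1, h2⟩ := ih (by omega)
    rw [Function.iterate_succ_apply']
    refine ⟨h1.derivative (by omega), ?_⟩
    have := Polynomial.degree_derivative (p := Polynomial.derivative^[k] p) (by omega)
    rw [Polynomial.natDegree_eq_of_degree_eq_some this, h2]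
    omega

theorem lin_of_hurwitz {p : ℂ[X]} (hp : Hw p) {k : ℕ} (hk : k < p.natDegree) {x : ℂ}
    (hx : 0 ≤ x.re) : p.coeff k * x + p.coeff (k + 1) ≠ 0 := by
  obtain ⟨q1, q2⟩ := hp.iterate k hk.le
  set q := Polynomial.derivative^[k] p with hq
  have r1 := q1.reverse
  have r2 := q1.natDegree_reverse
  set m := p.natDegree - k with hm
  have hm1 : 1 ≤ m := by omega
  obtain ⟨l1, l2⟩ := r1.iterate (m - 1) (by omega)
  set l := Polynomial.derivative^[m - 1] q.reverse with hl
  have hld : l.natDegree = 1 := by omega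
  have c0 : l.coeff 0 = (((m - 1).factorial * (k + 1).factorial : ℕ) : ℂ) * p.coeff (k + 1) := by
    rw [hl, Polynomial.coeff_iterate_derivative, Polynomial.coeff_reverse,
      Polynomial.revAt_le (by omega), q2, hq, Polynomial.coeff_iterate_derivative]
    have e1 : p.natDegree - k - (0 + (m - 1)) + k = k + 1 := by omega
    have e2 : 0 + (m - 1) = m - 1 := by omega
    rw [e1, e2, Nat.descFactorial_self]
    have e3 : (k + 1).descFactorial k = (k + 1).factorial := by
      have := Nat.factorial_mul_descFactorial (show k ≤ k + 1 by omega)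
      simpa using this
    rw [e3]
    simp only [nsmul_eq_mul]
    push_cast
    ring
  have c1 : l.coeff 1 = ((m.factorial * k.factorial : ℕ) : ℂ) * p.coeff k := by
    rw [hl, Polynomial.coeff_iterate_derivative, Polynomial.coeff_reverse,
      Polynomial.revAt_le (by omega), q2, hq, Polynomial.coeff_iterate_derivative]
    have e1 : p.natDegree - k - (1 + (m - 1)) + k = k := by omega
    have e2 : 1 + (m - 1) = m := by omega
    rw [e1, e2, Nat.descFactorial_self]
    have e3 : m.descFactorial (m - 1) = m.factorial := by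
      have := Nat.factorial_mul_descFactorial (show m - 1 ≤ m by omega)
      have e4 : m - (m - 1) = 1 := by omega
      rw [e4] at this
      simpa using this
    rw [e3]
    simp only [nsmul_eq_mul]
    push_cast
    ring
  intro h0
  set A : ℝ := (((m - 1).factorial * (k + 1).factorial : ℕ) : ℝ) with hA
  set B : ℝ := ((m.factorial * k.factorial : ℕ) : ℝ) with hB
  have hA0 : 0 < A := by rw [hA]; exact_mod_cast Nat.mul_pos (Nat.factorial_pos _) (Nat.factorial_pos _)
  have hB0 : 0 < B := by rw [hB]; exact_mod_cast Nat.mul_pos (Nat.factorial_pos _) (Nat.factorial_pos _)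
  have hAc : (((m - 1).factorial * (k + 1).factorial : ℕ) : ℂ) = (A : ℂ) := by rw [hA]; push_cast; rfl
  have hBc : ((m.factorial * k.factorial : ℕ) : ℂ) = (B : ℂ) := by rw [hB]; push_cast; rfl
  have hev : l.eval (((A / B : ℝ) : ℂ) * x) = 0 := by
    rw [Polynomial.eval_eq_sum_range, hld]
    simp only [Finset.sum_range_succ, Finset.sum_range_zero, zero_add, pow_zero, mul_one, pow_one]
    rw [c0, c1, hAc, hBc]
    have hB0' : (B : ℂ) ≠ 0 := by exact_mod_cast hB0.ne'
    push_cast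
    field_simp
    linear_combination (A : ℂ) * h0
  have := l1.2 _ hev
  rw [Complex.re_ofReal_mul] at this
  have h2 : 0 ≤ A / B * x.re := mul_nonneg (div_pos hA0 hB0).le hx
  linarith

end Helper87.EP
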